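import Pool.Agent.E8helper59.PN.Stm2

/-!
# Project PN (MP_c15520_co), piece JOIN (helper52)
-/

set_option autoImplicit false
open Set Topology Filter
open scoped Pointwise

namespace Pool.Agent.E8helper52.PN

open Pool.Agent.E8helper59.PN

/-- a convex compact neighbourhood of zero -/
structure Nb {n : ℕ} (G : Set (Fin n → ℝ)) : Prop where
  comp : IsCompact G
  conv : Convex ℝ G
  nhd : G ∈ 𝓝 (0 : Fin n → ℝ)

theorem nb_sub {n : ℕ} {F : Set (Fin n → ℝ)} (hF : Body F) : Nb (F - F) := by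
  obtain ⟨h1, h2, ⟨a, ha⟩⟩ := hF
  have hc : IsCompact (F - F) := by
    have e : F - F = (fun p : (Fin n → ℝ) × (Fin n → ℝ) => p.1 - p.2) '' (F ×ˢ F) := by
      ext z
      constructor
      · rintro ⟨x, hx, y, hy, rfl⟩
        exact ⟨(x, y), ⟨hx, hy⟩, rfl⟩
      · rintro ⟨⟨x, y⟩, ⟨hx, hy⟩, rfl⟩
        exact ⟨x, hx, y, hy, rfl⟩
    rw [e]
    exact (IsCompact.prod h1 h1).image (by fun_prop)
  refine ⟨hc, h2.sub h2, ?_⟩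
  have h3 : Tendsto (fun v : Fin n → ℝ => v + a) (𝓝 0) (𝓝 a) := by
    have : Continuous (fun v : Fin n → ℝ => v + a) := by fun_prop
    simpa using this.tendsto 0
  have h4 : F ∈ 𝓝 a := mem_interior_iff_mem_nhds.1 ha
  filter_upwards [h3 h4] with v hv
  exact ⟨v + a, hv, a, interior_subset ha, by simp⟩

theorem mem_of_gauge_le {n : ℕ} {G : Set (Fin n → ℝ)} (hG : Nb G) {x : Fin n → ℝ}
    (h : gauge G x ≤ 1) : x ∈ G := by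
  have := (gauge_le_one_iff_mem_closure hG.conv hG.nhd).1 h
  rwa [hG.comp.isClosed.closure_eq] at this

theorem dm_le {n : ℕ} (F : Set (Fin n → ℝ)) : Dm (F - F) F ≤ 1 := by
  unfold Dm
  refine Real.sSup_le ?_ zero_le_one
  rintro _ ⟨⟨x, y⟩, hxy, rfl⟩
  exact gauge_le_one_of_mem ⟨x, hxy.1, y, hxy.2, rfl⟩

section

variable {n₁ n₂ : ℕ}

/-- the first component -/
def p1 (x : Fin (n₁ + n₂) → ℝ) : Fin n₁ → ℝ := fun i => x (Fin.castAdd n₂ i)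

/-- the second component -/
def p2 (x : Fin (n₁ + n₂) → ℝ) : Fin n₂ → ℝ := fun i => x (Fin.natAdd n₁ i)

theorem mem_Join {F₁ : Set (Fin n₁ → ℝ)} {F₂ : Set (Fin n₂ → ℝ)} {x : Fin (n₁ + n₂) → ℝ} :
    x ∈ Join n₁ n₂ F₁ F₂ ↔ p1 x ∈ F₁ ∧ p2 x ∈ F₂ := Iff.rfl

theorem p1_cont : Continuous (p1 : (Fin (n₁ + n₂) → ℝ) → _) := by
  unfold p1
  fun_prop

theorem p2_cont : Continuous (p2 : (Fin (n₁ + n₂) → ℝ) → _) := by
  unfold p2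
  fun_prop

theorem join_sub (F₁ : Set (Fin n₁ → ℝ)) (F₂ : Set (Fin n₂ → ℝ)) :
    Join n₁ n₂ F₁ F₂ - Join n₁ n₂ F₁ F₂ = Join n₁ n₂ (F₁ - F₁) (F₂ - F₂) := by
  ext z
  constructor
  · rintro ⟨x, hx, y, hy, rfl⟩
    exact ⟨⟨p1 x, hx.1, p1 y, hy.1, rfl⟩, ⟨p2 x, hx.2, p2 y, hy.2, rfl⟩⟩
  · rintro ⟨⟨a, ha, b, hb, hab⟩, ⟨c, hc, d, hd, hcd⟩⟩
    refine ⟨Fin.append a c, ⟨?_, ?_⟩, Fin.append b d, ⟨?_, ?_⟩, ?_⟩
    · simpa using ha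
    · simpa using hc
    · simpa using hb
    · simpa using hd
    · funext i
      refine Fin.addCases (fun i => ?_) (fun i => ?_) i
      · have := congrFun hab i
        simpa using this
      · have := congrFun hcd i
        simpa using this

theorem convex_Join {G₁ : Set (Fin n₁ → ℝ)} {G₂ : Set (Fin n₂ → ℝ)} (h1 : Nb G₁) (h2 : Nb G₂) :
    Convex ℝ (Join n₁ n₂ G₁ G₂) := by
  intro x hx y hy a b ha hb hab
  exact ⟨h1.conv hx.1 hy.1 ha hb hab, h2.conv hx.2 hy.2 ha hb hab⟩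

theorem nhd_Join {G₁ : Set (Fin n₁ → ℝ)} {G₂ : Set (Fin n₂ → ℝ)} (h1 : Nb G₁) (h2 : Nb G₂) :
    Join n₁ n₂ G₁ G₂ ∈ 𝓝 (0 : Fin (n₁ + n₂) → ℝ) := by
  have e1 : (p1 : (Fin (n₁ + n₂) → ℝ) → _) ⁻¹' G₁ ∈ 𝓝 (0 : Fin (n₁ + n₂) → ℝ) :=
    p1_cont.continuousAt.preimage_mem_nhds (show G₁ ∈ 𝓝 (0 : Fin n₁ → ℝ) from h1.nhd)
  have e2 : (p2 : (Fin (n₁ + n₂) → ℝ) → _) ⁻¹' G₂ ∈ 𝓝 (0 : Fin (n₁ + n₂) → ℝ) :=
    p2_cont.continuousAt.preimage_mem_nhds (show G₂ ∈ 𝓝 (0 : Fin n₂ → ℝ) from h2.nhd)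
  exact Filter.inter_mem e1 e2

theorem closed_Join {G₁ : Set (Fin n₁ → ℝ)} {G₂ : Set (Fin n₂ → ℝ)} (h1 : Nb G₁) (h2 : Nb G₂) :
    IsClosed (Join n₁ n₂ G₁ G₂) :=
  (h1.comp.isClosed.preimage p1_cont).inter (h2.comp.isClosed.preimage p2_cont)

theorem gauge_Join {G₁ : Set (Fin n₁ → ℝ)} {G₂ : Set (Fin n₂ → ℝ)} (h1 : Nb G₁) (h2 : Nb G₂)
    {c : ℝ} (hc : 0 ≤ c) {z : Fin (n₁ + n₂) → ℝ} (hz1 : gauge G₁ (p1 z) ≤ c)
    (hz2 : gauge G₂ (p2 z) ≤ c) : gauge (Join n₁ n₂ G₁ G₂) z ≤ c := by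
  refine le_of_forall_gt_imp_ge_of_dense fun c' hc' => ?_
  have hc0 : 0 < c' := lt_of_le_of_lt hc hc'
  have e1 : p1 (c'⁻¹ • z) ∈ G₁ := by
    apply mem_of_gauge_le h1
    have : p1 (c'⁻¹ • z) = c'⁻¹ • p1 z := rfl
    rw [this, gauge_smul_of_nonneg (inv_nonneg.2 hc0.le), smul_eq_mul, inv_mul_le_iff₀ hc0]
    linarith
  have e2 : p2 (c'⁻¹ • z) ∈ G₂ := by
    apply mem_of_gauge_le h2
    have : p2 (c'⁻¹ • z) = c'⁻¹ • p2 z := rfl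
    rw [this, gauge_smul_of_nonneg (inv_nonneg.2 hc0.le), smul_eq_mul, inv_mul_le_iff₀ hc0]
    linarith
  have e3 : gauge (Join n₁ n₂ G₁ G₂) (c'⁻¹ • z) ≤ 1 := gauge_le_one_of_mem ⟨e1, e2⟩
  rw [gauge_smul_of_nonneg (inv_nonneg.2 hc0.le), smul_eq_mul, inv_mul_le_iff₀ hc0] at e3
  linarith

theorem one_le_dm (hn : 1 ≤ n₁) {F₁ : Set (Fin n₁ → ℝ)} {F₂ : Set (Fin n₂ → ℝ)} (h1 : Nb (F₁ - F₁))
    (h2 : Nb (F₂ - F₂)) :
    1 ≤ Dm (Join n₁ n₂ F₁ F₂ - Join n₁ n₂ F₁ F₂) (Join n₁ n₂ F₁ F₂) := by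
  have hbdd : BddAbove ((fun p : (Fin (n₁ + n₂) → ℝ) × (Fin (n₁ + n₂) → ℝ) =>
      gauge (Join n₁ n₂ F₁ F₂ - Join n₁ n₂ F₁ F₂) (p.1 - p.2)) ''
        (Join n₁ n₂ F₁ F₂ ×ˢ Join n₁ n₂ F₁ F₂)) := by
    refine ⟨1, ?_⟩
    rintro _ ⟨⟨x, y⟩, hxy, rfl⟩
    exact gauge_le_one_of_mem ⟨x, hxy.1, y, hxy.2, rfl⟩
  obtain ⟨z0, hz0⟩ : ∃ z0 : Fin (n₁ + n₂) → ℝ, z0 = fun _ => 1 := ⟨_, rfl⟩
  have hmem : ∀ z : Fin (n₁ + n₂) → ℝ, gauge (Join n₁ n₂ (F₁ - F₁) (F₂ - F₂)) z ≤ 1 →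
      z ∈ Join n₁ n₂ (F₁ - F₁) (F₂ - F₂) := by
    intro z hz
    have := (gauge_le_one_iff_mem_closure (convex_Join h1 h2) (nhd_Join h1 h2)).1 hz
    rwa [(closed_Join h1 h2).closure_eq] at this
  have hg : gauge (Join n₁ n₂ (F₁ - F₁) (F₂ - F₂)) z0 ≠ 0 := by
    intro h0
    obtain ⟨R, hR⟩ := h1.comp.isBounded.exists_norm_le
    have h3 : (|R| + 1) • z0 ∈ Join n₁ n₂ (F₁ - F₁) (F₂ - F₂) := by
      apply hmem
      rw [gauge_smul_of_nonneg (by positivity), h0, smul_zero]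
      exact zero_le_one
    have h4 := hR _ h3.1
    have h5 : |((fun i => ((|R| + 1) • z0) (Fin.castAdd n₂ i)) : Fin n₁ → ℝ) ⟨0, hn⟩| ≤
        ‖((fun i => ((|R| + 1) • z0) (Fin.castAdd n₂ i)) : Fin n₁ → ℝ)‖ := by
      rw [← Real.norm_eq_abs]
      exact norm_le_pi_norm (fun i : Fin n₁ => ((|R| + 1) • z0) (Fin.castAdd n₂ i)) ⟨0, hn⟩
    have h6 : |((fun i => ((|R| + 1) • z0) (Fin.castAdd n₂ i)) : Fin n₁ → ℝ) ⟨0, hn⟩| =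
        |R| + 1 := by
      rw [hz0]
      simp only [Pi.smul_apply, smul_eq_mul, mul_one]
      exact abs_of_nonneg (by positivity)
    rw [h6] at h5
    have h7 := le_abs_self R
    linarith
  have hg0 : 0 < gauge (Join n₁ n₂ (F₁ - F₁) (F₂ - F₂)) z0 :=
    lt_of_le_of_ne (gauge_nonneg _) (Ne.symm hg)
  obtain ⟨z, hz⟩ : ∃ z, z = (gauge (Join n₁ n₂ (F₁ - F₁) (F₂ - F₂)) z0)⁻¹ • z0 := ⟨_, rfl⟩
  have hz1 : gauge (Join n₁ n₂ (F₁ - F₁) (F₂ - F₂)) z = 1 := by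
    rw [hz, gauge_smul_of_nonneg (inv_nonneg.2 hg0.le), smul_eq_mul, inv_mul_cancel₀ hg]
  have hz2 := hmem z hz1.le
  rw [← join_sub] at hz2 hz1
  obtain ⟨x, hx, y, hy, hxy⟩ := hz2
  unfold Dm
  refine le_csSup_of_le hbdd ⟨(x, y), ⟨hx, hy⟩, rfl⟩ ?_
  simp only
  rw [show x - y = z from hxy, hz1]

end

theorem t_JOIN : S_JOIN := by
  intro n₁ n₂ k₁ k₂ k F₁ F₂ hn1 hn2 hF1 hF2 ⟨A, hA, hA2⟩ ⟨B, hB, hB2⟩ hk
  have h1 := nb_sub hF1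
  have h2 := nb_sub hF2
  have hdm := one_le_dm (n₂ := n₂) hn1 h1 h2
  refine ⟨fun m => if h : (m : ℕ) < k₁ * k₂ then
    {x | p1 x ∈ A (finProdFinEquiv.symm ⟨m, h⟩).1 ∧ p2 x ∈ B (finProdFinEquiv.symm ⟨m, h⟩).2}
    else ∅, ?_, ?_⟩
  · ext x
    rw [mem_iUnion]
    constructor
    · rintro ⟨m, hm⟩
      split_ifs at hm with h
      · exact ⟨hA ▸ mem_iUnion.2 ⟨_, hm.1⟩, hB ▸ mem_iUnion.2 ⟨_, hm.2⟩⟩
      · exact absurd hm (notMem_empty x)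
    · intro hx
      have e1 : p1 x ∈ ⋃ i, A i := by rw [hA]; exact hx.1
      have e2 : p2 x ∈ ⋃ i, B i := by rw [hB]; exact hx.2
      obtain ⟨i, hi⟩ := mem_iUnion.1 e1
      obtain ⟨j, hj⟩ := mem_iUnion.1 e2
      refine ⟨⟨finProdFinEquiv (i, j), lt_of_lt_of_le (finProdFinEquiv (i, j)).2 hk⟩, ?_⟩
      have h : ((finProdFinEquiv (i, j) : Fin (k₁ * k₂)) : ℕ) < k₁ * k₂ :=
        (finProdFinEquiv (i, j)).2
      rw [dif_pos h]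
      have e3 : finProdFinEquiv.symm ⟨((finProdFinEquiv (i, j) : Fin (k₁ * k₂)) : ℕ), h⟩ =
          (i, j) := by
        rw [Fin.eta, Equiv.symm_apply_apply]
      show p1 x ∈ A (finProdFinEquiv.symm
        ⟨((finProdFinEquiv (i, j) : Fin (k₁ * k₂)) : ℕ), h⟩).1 ∧ p2 x ∈ B (finProdFinEquiv.symm
        ⟨((finProdFinEquiv (i, j) : Fin (k₁ * k₂)) : ℕ), h⟩).2
      rw [e3]
      exact ⟨hi, hj⟩
  · intro m
    by_cases h : (m : ℕ) < k₁ * k₂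
    · obtain ⟨c1, hc1, hc1'⟩ := hA2 (finProdFinEquiv.symm ⟨m, h⟩).1
      obtain ⟨c2, hc2, hc2'⟩ := hB2 (finProdFinEquiv.symm ⟨m, h⟩).2
      have e1 : c1 < 1 := lt_of_lt_of_le hc1 (dm_le F₁)
      have e2 : c2 < 1 := lt_of_lt_of_le hc2 (dm_le F₂)
      refine ⟨max (max c1 c2) 0, lt_of_lt_of_le
        (max_lt (max_lt e1 e2) zero_lt_one) hdm, ?_⟩
      intro x hx y hy
      simp only [dif_pos h] at hx hy
      rw [join_sub]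
      refine gauge_Join h1 h2 (le_max_right _ _) ?_ ?_
      · exact (hc1' _ hx.1 _ hy.1).trans ((le_max_left _ _).trans (le_max_left _ _))
      · exact (hc2' _ hx.2 _ hy.2).trans ((le_max_right _ _).trans (le_max_left _ _))
    · refine ⟨0, lt_of_lt_of_le zero_lt_one hdm, ?_⟩
      intro x hx
      simp only [dif_neg h] at hx
      exact absurd hx (notMem_empty x)

end Pool.Agent.E8helper52.PN
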